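import Pool.Agent.helper11.TX.Spec3
import Pool.Agent.helper49.TX.VL

/-!
# Project TX (MP_bf63dc_nt), row VLS (statement by helper11; after helper49/TX/VL)
-/

set_option autoImplicit false

namespace Pool.Agent.helper11.TX

open Finset Pool.Agent.helper85.FC

theorem VLS_Y (W N : ℕ) (hW : 6 ∣ W) :
    3 / 4 * ∑ a ∈ Icc 1 N, 1 / (a : ℝ) ≤ ∑ α ∈ Icc 1 N, yy W α / (α : ℝ) := by
  have h1 : ∀ α ∈ Icc 1 N, 1 / (α : ℝ) -
      ∑ l ∈ Ioc 4 N, (if l ∣ α then 1 / (l : ℝ) * (1 / (α : ℝ)) else 0) ≤ yy W α / (α : ℝ) := by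
    intro α hα
    rw [mem_Icc] at hα
    have hα0 : (0 : ℝ) < α := by exact_mod_cast hα.1
    have h2 : 1 - ∑ l ∈ α.primeFactors.filter (fun l => ¬ l ∣ W), 1 / (l : ℝ) ≤ yy W α := by
      unfold yy
      apply VL_one_sub
      · intro l _
        positivity
      · intro l hl
        have := VL_fac l (Nat.prime_of_mem_primeFactors (mem_filter.1 hl).1)
        linarith [this.1]
    have h3 : ∑ l ∈ α.primeFactors.filter (fun l => ¬ l ∣ W), 1 / (l : ℝ) ≤
        ∑ l ∈ (Ioc 4 N).filter (fun l => l ∣ α), 1 / (l : ℝ) := by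
      apply Finset.sum_le_sum_of_subset_of_nonneg
      · intro l hl
        rw [mem_filter, Nat.mem_primeFactors] at hl
        obtain ⟨⟨hp, hd, _⟩, hnW⟩ := hl
        rw [mem_filter, mem_Ioc]
        refine ⟨⟨?_, (Nat.le_of_dvd (by omega) hd).trans hα.2⟩, hd⟩
        by_contra hlt
        apply hnW
        refine dvd_trans ?_ hW
        have h6 : l ≤ 4 := by omega
        interval_cases l
        · exact absurd hp (by norm_num)
        · exact absurd hp (by norm_num)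
        · norm_num
        · norm_num
        · exact absurd hp (by norm_num)
      · intro _ _ _
        positivity
    have h4 : ∑ l ∈ Ioc 4 N, (if l ∣ α then 1 / (l : ℝ) * (1 / (α : ℝ)) else 0) =
        (∑ l ∈ (Ioc 4 N).filter (fun l => l ∣ α), 1 / (l : ℝ)) * (1 / (α : ℝ)) := by
      rw [← Finset.sum_filter, Finset.sum_mul]
    rw [h4, div_eq_mul_one_div (yy W α)]
    have h5 : 0 < 1 / (α : ℝ) := by positivity
    nlinarith [mul_le_mul_of_nonneg_right (h2.trans' (sub_le_sub_left h3 1)) h5.le]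
  refine le_trans ?_ (Finset.sum_le_sum h1)
  rw [Finset.sum_sub_distrib, Finset.sum_comm]
  have h6 : ∑ l ∈ Ioc 4 N, ∑ α ∈ Icc 1 N, (if l ∣ α then 1 / (l : ℝ) * (1 / (α : ℝ)) else 0) ≤
      1 / 4 * ∑ a ∈ Icc 1 N, 1 / (a : ℝ) := by
    have hH : 0 ≤ ∑ a ∈ Icc 1 N, 1 / (a : ℝ) := Finset.sum_nonneg fun _ _ => by positivity
    calc ∑ l ∈ Ioc 4 N, ∑ α ∈ Icc 1 N, (if l ∣ α then 1 / (l : ℝ) * (1 / (α : ℝ)) else 0)
        ≤ ∑ l ∈ Ioc 4 N, ((l : ℝ) ^ 2)⁻¹ * ∑ a ∈ Icc 1 N, 1 / (a : ℝ) := by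
          refine Finset.sum_le_sum fun l hl => ?_
          rw [mem_Ioc] at hl
          have hm := VL_mult l N (by omega)
          have e1 : ∑ α ∈ Icc 1 N, (if l ∣ α then 1 / (l : ℝ) * (1 / (α : ℝ)) else 0) =
              1 / (l : ℝ) * ∑ α ∈ Icc 1 N, (if l ∣ α then 1 / (α : ℝ) else 0) := by
            rw [Finset.mul_sum]
            refine Finset.sum_congr rfl fun α _ => ?_
            split_ifs <;> simp
          rw [e1]
          have e2 : ((l : ℝ) ^ 2)⁻¹ = 1 / (l : ℝ) * (1 / (l : ℝ)) := by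
            rw [sq, mul_inv, one_div]
          rw [e2, mul_assoc]
          exact mul_le_mul_of_nonneg_left hm (by positivity)
      _ = (∑ l ∈ Ioc 4 N, ((l : ℝ) ^ 2)⁻¹) * ∑ a ∈ Icc 1 N, 1 / (a : ℝ) := by
          rw [Finset.sum_mul]
      _ ≤ 1 / 4 * ∑ a ∈ Icc 1 N, 1 / (a : ℝ) := by
          apply mul_le_mul_of_nonneg_right _ hH
          rcases le_or_gt 4 N with h | h
          · have h7 := sum_Ioc_inv_sq_le_sub (α := ℝ) (k := 4) (n := N) (by norm_num) h
            have h8 : (0 : ℝ) ≤ (N : ℝ)⁻¹ := by positivity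
            have h9 : ((4 : ℕ) : ℝ)⁻¹ = 1 / 4 := by norm_num
            rw [h9] at h7
            linarith
          · rw [Finset.Ioc_eq_empty (by omega), Finset.sum_empty]
            norm_num
  linarith

theorem VLS (h : GC_stmt) : VLS_stmt := by
  intro W N _ hW hN
  have hlog : 0 ≤ Real.log N := Real.log_natCast_nonneg N
  have hVW : 0 ≤ VW W N := by
    unfold VW
    exact Finset.sum_nonneg fun a _ => Finset.sum_nonneg fun b _ =>
      div_nonneg (VL_yy_nonneg W _) (by positivity)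
  have h1 := VL_sq h W N
  have h2 := VLS_Y W N hW
  have h3 := VL_le_H N hN
  have h4 := VL_ZZ N
  have h5 : 3 / 4 * Real.log N ≤ ∑ α ∈ Icc 1 N, yy W α / (α : ℝ) := by linarith
  have h6 : (3 / 4 * Real.log N) ^ 2 ≤ (∑ α ∈ Icc 1 N, yy W α / (α : ℝ)) ^ 2 :=
    pow_le_pow_left₀ (by positivity) h5 2
  have h7 : ZZ N * VW W N ≤ 2 * VW W N := mul_le_mul_of_nonneg_right h4 hVW
  nlinarith [sq_nonneg (Real.log N)]

end Pool.Agent.helper11.TX
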